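import Pool.Agent.Work.MP_c2ab8b_gt.Bip
import Mathlib.Analysis.Convex.KreinMilman

/- The inscribed polytope with at most seven vertices of maximum surface area. -/

noncomputable section
namespace Pool.Agent.Results.MP_c2ab8b_gt.SevenVertices
open Real MeasureTheory Set

/-- `Q` is a convex polytope in three-space with the origin in its interior, with at most `K` vertices
(extreme points), all of them on the unit sphere. -/
def Inscribed (K : ℕ) (Q : Set (EuclideanSpace ℝ (Fin 3))) : Prop :=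
  (∃ S : Set (EuclideanSpace ℝ (Fin 3)), S.Finite ∧ Q = convexHull ℝ S) ∧ 0 ∈ interior Q ∧
    (Q.extremePoints ℝ).encard ≤ K ∧ ∀ v ∈ Q.extremePoints ℝ, ‖v‖ = 1

/-- The surface area: the two-dimensional Hausdorff measure of the boundary, normalised to agree with
Lebesgue measure on planes. -/
def surfaceArea (Q : Set (EuclideanSpace ℝ (Fin 3))) : ENNReal :=
  Measure.euclideanHausdorffMeasure 2 (frontier Q)

/-- The regular pentagonal bipyramid: the two poles and a regular pentagon on the equator. -/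
def bipyramid : Set (EuclideanSpace ℝ (Fin 3)) :=
  convexHull ℝ ({WithLp.toLp 2 ![0, 0, 1], WithLp.toLp 2 ![0, 0, -1]} ∪
    range fun k : Fin 5 => WithLp.toLp 2 ![cos (2 * π * k / 5), sin (2 * π * k / 5), 0])

open Pool.Agent.Work.MP_c2ab8b_gt

theorem bip_eq : bipyramid = Hu BP := by
  obtain ⟨h1, h2, -⟩ := kap
  have c1 : cos (2 * (π / 5)) = κ - 1 / 2 := by rw [cos_two_mul]; exact by show 2 * κ ^ 2 - 1 = _; linarith
  have s1 : sin (2 * (π / 5)) = 2 * σ * κ := sin_two_mul _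
  have e : ∀ k : Fin 5, WithLp.toLp 2 ![cos (2 * π * k / 5), sin (2 * π * k / 5), 0] = BP (k.castAdd 2) := by
    intro k
    fin_cases k
    · simp [BP]
    · show WithLp.toLp 2 ![cos (2 * π * (1 : ℕ) / 5), sin (2 * π * (1 : ℕ) / 5), 0] = _
      rw [show 2 * π * (1 : ℕ) / 5 = 2 * (π / 5) by push_cast; ring, c1, s1]; rfl
    · show WithLp.toLp 2 ![cos (2 * π * (2 : ℕ) / 5), sin (2 * π * (2 : ℕ) / 5), 0] = _
      rw [show 2 * π * (2 : ℕ) / 5 = π - π / 5 by push_cast; ring, cos_pi_sub, sin_pi_sub]; rfl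
    · show WithLp.toLp 2 ![cos (2 * π * (3 : ℕ) / 5), sin (2 * π * (3 : ℕ) / 5), 0] = _
      rw [show 2 * π * (3 : ℕ) / 5 = π / 5 + π by push_cast; ring, cos_add_pi, sin_add_pi]; rfl
    · show WithLp.toLp 2 ![cos (2 * π * (4 : ℕ) / 5), sin (2 * π * (4 : ℕ) / 5), 0] = _
      rw [show 2 * π * (4 : ℕ) / 5 = 2 * π - 2 * (π / 5) by push_cast; ring, cos_two_pi_sub, sin_two_pi_sub,
        c1, s1]; rfl
  unfold bipyramid Hu
  simp only [e]
  congr 1
  ext x
  constructor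
  · rintro ((rfl | rfl) | ⟨k, rfl⟩)
    exacts [⟨5, rfl⟩, ⟨6, rfl⟩, ⟨_, rfl⟩]
  · rintro ⟨i, rfl⟩
    fin_cases i
    exacts [Or.inr ⟨0, rfl⟩, Or.inr ⟨1, rfl⟩, Or.inr ⟨2, rfl⟩, Or.inr ⟨3, rfl⟩, Or.inr ⟨4, rfl⟩,
      Or.inl (Or.inl rfl), Or.inl (Or.inr rfl)]

theorem param {Q : Set V} (h : Inscribed 7 Q) :
    ∃ X : Fin 7 → V, (∀ i, dt (X i) (X i) = 1) ∧ Q = Hu X := by
  obtain ⟨⟨S, hS, e⟩, h0, hc, hn⟩ := h
  have fin : (Q.extremePoints ℝ).Finite := finite_of_encard_le_coe hc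
  have cQ : IsCompact Q := e ▸ hS.isCompact_convexHull ℝ
  have km := closure_convexHull_extremePoints cQ (e ▸ convex_convexHull ℝ S)
  rw [(fin.isClosed_convexHull ℝ).closure_eq] at km
  obtain ⟨v, hv⟩ := cQ.extremePoints_nonempty ⟨0, interior_subset h0⟩
  have := fin.fintype
  have : Nonempty (Q.extremePoints ℝ) := ⟨⟨v, hv⟩⟩
  obtain ⟨f⟩ : Nonempty (Q.extremePoints ℝ ↪ Fin 7) := Function.Embedding.nonempty_of_card_le (by
    rw [← coe_fintypeCard] at hc
    rw [Fintype.card_fin]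
    exact_mod_cast hc)
  refine ⟨fun i => (Function.invFun f i : Q.extremePoints ℝ), fun i => by
    rw [dt_self, hn _ (Function.invFun f i).2]; norm_num, ?_⟩
  exact km.symm.trans (congrArg _
    ((Function.invFun_surjective f.injective).range_comp Subtype.val |>.trans Subtype.range_coe).symm)

theorem result :
    IsGreatest (surfaceArea '' {Q | Inscribed 7 Q})
      (ENNReal.ofReal (10 * sin (π / 5) * √(1 + cos (π / 5) ^ 2))) ∧
    ∀ Q, Inscribed 7 Q →
      (surfaceArea Q = ENNReal.ofReal (10 * sin (π / 5) * √(1 + cos (π / 5) ^ 2)) ↔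
        ∃ T : EuclideanSpace ℝ (Fin 3) ≃ₗᵢ[ℝ] EuclideanSpace ℝ (Fin 3), Q = T '' bipyramid) := by
  have eM : 10 * sin (π / 5) * √(1 + cos (π / 5) ^ 2) = 10 * (σ * γ) := mul_assoc _ _ _
  have sub : (Hu BP).extremePoints ℝ ⊆ range BP := extremePoints_convexHull_subset
  have ph : ∀ X, 0 ≤ Phi X := fun X => by unfold Phi; positivity
  rw [eM, bip_eq]
  refine ⟨⟨⟨Hu BP, ⟨⟨_, finite_range BP, rfl⟩, BP_int, ?_, fun v hv => ?_⟩, BP_area⟩, ?_⟩, fun Q hQ => ⟨?_, ?_⟩⟩
  · refine (encard_le_encard sub).trans ?_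
    rw [← image_univ]
    exact (encard_image_le _ _).trans (by simp)
  · obtain ⟨i, rfl⟩ := sub hv
    exact (pow_eq_one_iff_of_nonneg (norm_nonneg _) two_ne_zero).1 ((dt_self _).symm.trans (BP_u i))
  · rintro _ ⟨Q, hQ, rfl⟩
    obtain ⟨X, u, rfl⟩ := param hQ
    obtain ⟨s, -, e, h⟩ := main_bd u hQ.2.1
    refine e.trans_le (ENNReal.ofReal_le_ofReal ?_)
    rcases h with h | ⟨p, -, -, h⟩
    · linarith [σγ_bd.1]
    · linarith [ph (X ∘ p)]
  · intro hA
    obtain ⟨X, u, rfl⟩ := param hQ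
    obtain ⟨s, s0, e, h⟩ := main_bd u hQ.2.1
    obtain rfl := (ENNReal.ofReal_eq_ofReal_iff s0 (by linarith [σγ_bd.1])).1 (e.symm.trans hA)
    rcases h with h | ⟨p, hp, o, h⟩
    · linarith [σγ_bd.1]
    · obtain ⟨T, hT⟩ := rigid (X := X ∘ p) (fun i => u _) (by linarith) o
      refine ⟨T, ?_⟩
      rw [← Hu_comp X hp, hT]
      unfold Hu
      rw [range_comp]
      exact (T.toLinearEquiv.toLinearMap.image_convexHull _).symm
  · rintro ⟨T, rfl⟩
    rw [← BP_area, ← T.isometry.euclideanHausdorffMeasure_image]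
    exact congrArg _ (T.toHomeomorph.image_frontier _).symm

end Pool.Agent.Results.MP_c2ab8b_gt.SevenVertices
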